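import Mathlib

/-!
# Products of polynomials that fold into pseudo-random array codes
-/

open Polynomial

namespace Pool.Agent.Results.MP_2c8f22_co.NotPRAC

/-! ### Polynomials over `F_2` as binary numbers -/

/-- the polynomial whose coefficients are the binary digits of `m` -/
noncomputable def P (m : ℕ) : (ZMod 2)[X] :=
  if h : m = 0 then 0 else (if m % 2 = 1 then 1 else 0) + X * P (m / 2)
termination_by m
decreasing_by omega

lemma P_zero : P 0 = 0 := by rw [P]; simp

lemma P_eq (m : ℕ) : P m = (if m % 2 = 1 then 1 else 0) + X * P (m / 2) := by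
  by_cases h : m = 0
  · subst h
    simp [P_zero]
  · conv_lhs => rw [P]
    rw [dif_neg h]

lemma P_one : P 1 = 1 := by
  rw [P_eq]; simp [P_zero]

lemma P_double (m : ℕ) : P (2 * m) = X * P m := by
  rw [P_eq]
  have h1 : (2 * m) % 2 = 0 := by omega
  have h2 : (2 * m) / 2 = m := by omega
  simp [h1, h2]

lemma P_two_pow (k : ℕ) : P (2 ^ k) = X ^ k := by
  induction k with
  | zero => simp [P_one]
  | succ k ih => rw [pow_succ', P_double, ih, pow_succ']

lemma P_xor (a b : ℕ) : P (a ^^^ b) = P a + P b := by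
  induction a using Nat.strong_induction_on generalizing b with
  | _ a ih =>
    by_cases ha : a = 0
    · subst ha
      simp [P_zero]
    · rw [P_eq (a ^^^ b), P_eq a, P_eq b]
      have h1 : (a ^^^ b) / 2 = (a / 2) ^^^ (b / 2) := Nat.xor_div_two
      have h2 : (a ^^^ b) % 2 = ((a % 2) + (b % 2)) % 2 := by
        rcases Nat.mod_two_eq_zero_or_one a with h | h <;>
        rcases Nat.mod_two_eq_zero_or_one b with h' | h' <;>
        simp [Nat.xor_mod_two_eq, h, h', Nat.add_mod]
      rw [h1, ih (a / 2) (by omega), h2]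
      have h11 : (1 : (ZMod 2)[X]) + 1 = 0 := by
        have : ((2 : ℕ) : (ZMod 2)[X]) = 0 := CharP.cast_eq_zero _ 2
        rw [← this]; norm_num
      rcases Nat.mod_two_eq_zero_or_one a with h | h <;>
      rcases Nat.mod_two_eq_zero_or_one b with h' | h' <;>
      simp only [h, h'] <;> norm_num
      · ring
      · ring
      · ring
      · linear_combination -h11

/-- carry-less multiplication -/
def cl : ℕ → ℕ → ℕ → ℕ
  | 0, _, _ => 0
  | k + 1, a, b => (if b % 2 = 1 then a else 0) ^^^ cl k (2 * a) (b / 2)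

lemma P_cl (k a b : ℕ) (hb : b < 2 ^ k) : P (cl k a b) = P a * P b := by
  induction k generalizing a b with
  | zero =>
    have : b = 0 := by simpa using hb
    subst this
    simp [cl, P_zero]
  | succ k ih =>
    rw [cl, P_xor, ih _ _ (by rw [pow_succ] at hb; omega), P_double, P_eq b]
    split_ifs with h
    · ring
    · rw [P_zero]; ring

/-! ### Sequences, arrays and windows -/

/-- `s` is generated by `f`: it satisfies the linear recurrence with characteristic
polynomial `f` -/
def Generates (f : (ZMod 2)[X]) (s : ℕ → ZMod 2) : Prop :=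
  ∀ n, ∑ j ∈ Finset.range (f.natDegree + 1), f.coeff j * s (n + j) = 0

/-- `e` is the exponent of `f` -/
def IsExponent (f : (ZMod 2)[X]) (e : ℕ) : Prop := IsLeast {e : ℕ | 1 ≤ e ∧ f ∣ X ^ e - 1} e

/-- doubly periodic `r₁ × r₂` binary arrays -/
abbrev Arr (r₁ r₂ : ℕ) : Type := ZMod r₁ → ZMod r₂ → ZMod 2

/-- cyclic shifts of arrays -/
def shift {r₁ r₂ : ℕ} (A : Arr r₁ r₂) (i : ZMod r₁) (j : ZMod r₂) : Arr r₁ r₂ :=
  fun a b => A (a + i) (b + j)

/-- the `n₁ × n₂` window of `A` at `(i, j)` -/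
def window {r₁ r₂ : ℕ} (n₁ n₂ : ℕ) (A : Arr r₁ r₂) (i : ZMod r₁) (j : ZMod r₂) :
    Fin n₁ → Fin n₂ → ZMod 2 :=
  fun a b => A (i + ((a : ℕ) : ZMod r₁)) (j + ((b : ℕ) : ZMod r₂))

/-- `(r₁, r₂; n₁, n₂)`-pseudo-random array codes -/
structure IsPRAC (r₁ r₂ n₁ n₂ : ℕ) (C : Set (Arr r₁ r₂)) : Prop where
  dvd : r₁ * r₂ ∣ 2 ^ (n₁ * n₂) - 1
  windows : ∀ M : Fin n₁ → Fin n₂ → ZMod 2, M ≠ 0 →
    ∃! p : Arr r₁ r₂ × ZMod r₁ × ZMod r₂, p.1 ∈ C ∧ window n₁ n₂ p.1 p.2.1 p.2.2 = M
  shift_add : ∀ A ∈ C, ∀ B : Arr r₁ r₂,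
    ((B ∈ C ∧ A ≠ B) ∨ ∃ (i : ZMod r₁) (j : ZMod r₂), (i, j) ≠ (0, 0) ∧ B = shift A i j) →
    ∃ D ∈ C, ∃ (i : ZMod r₁) (j : ZMod r₂), A + B = shift D i j

/-- the index `i` with `i ≡ a mod r₁` and `i ≡ b mod r₂` -/
def idx {r₁ r₂ : ℕ} (h : Nat.Coprime r₁ r₂) (a : ZMod r₁) (b : ZMod r₂) : ℕ :=
  ((ZMod.chineseRemainder h).symm (a, b)).val

/-- folding a sequence (of period dividing `r₁ r₂`) into an array -/
def fold {r₁ r₂ : ℕ} (h : Nat.Coprime r₁ r₂) (s : ℕ → ZMod 2) : Arr r₁ r₂ :=
  fun a b => s (idx h a b)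

/-- `C` consists of the foldings of the nonzero sequences generated by `f`, one for each class
of sequences under shifts -/
def IsFolding {r₁ r₂ : ℕ} (h : Nat.Coprime r₁ r₂) (f : (ZMod 2)[X]) (C : Set (Arr r₁ r₂)) :
    Prop :=
  (∀ A ∈ C, ∃ s, Generates f s ∧ s ≠ 0 ∧ A = fold h s) ∧
  ∀ s, Generates f s → s ≠ 0 →
    ∃! A, A ∈ C ∧ ∃ (i : ZMod r₁) (j : ZMod r₂), fold h s = shift A i j

/-- the functional `X^n ↦ s n` -/
noncomputable def lam (s : ℕ → ZMod 2) : (ZMod 2)[X] →ₗ[ZMod 2] ZMod 2 :=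
  (basisMonomials (ZMod 2)).constr (ZMod 2) s

lemma lam_X_pow (s : ℕ → ZMod 2) (n : ℕ) : lam s (X ^ n) = s n := by
  rw [← monomial_one_right_eq_X_pow, lam]
  exact (basisMonomials (ZMod 2)).constr_basis (ZMod 2) s n

lemma lam_mul (s : ℕ → ZMod 2) (n : ℕ) (f : (ZMod 2)[X]) :
    lam s (X ^ n * f) = ∑ j ∈ Finset.range (f.natDegree + 1), f.coeff j * s (n + j) := by
  conv_lhs => rw [f.as_sum_range_C_mul_X_pow, Finset.mul_sum, map_sum]
  refine Finset.sum_congr rfl fun j _ => ?_
  have : (X ^ n * (C (f.coeff j) * X ^ j) : (ZMod 2)[X]) = f.coeff j • X ^ (n + j) := by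
    rw [smul_eq_C_mul, pow_add]; ring
  rw [this, map_smul, lam_X_pow, smul_eq_mul]

lemma gen_mul {f : (ZMod 2)[X]} {s : ℕ → ZMod 2} (hs : Generates f s) (q : (ZMod 2)[X]) :
    lam s (q * f) = 0 := by
  induction q using Polynomial.induction_on' with
  | add p q hp hq => rw [add_mul, map_add, hp, hq, add_zero]
  | monomial n a =>
    have : (monomial n a * f : (ZMod 2)[X]) = a • (X ^ n * f) := by
      rw [smul_eq_C_mul, ← C_mul_X_pow_eq_monomial]; ring
    rw [this, map_smul, lam_mul, hs n, smul_zero]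

lemma gen_dvd {f g : (ZMod 2)[X]} {s : ℕ → ZMod 2} (hs : Generates f s) (h : f ∣ g) :
    lam s g = 0 := by
  obtain ⟨q, rfl⟩ := h
  rw [mul_comm]
  exact gen_mul hs q

lemma gen_period {f : (ZMod 2)[X]} {s : ℕ → ZMod 2} {e : ℕ} (hs : Generates f s)
    (he : f ∣ X ^ e - 1) (n : ℕ) : s (n + e) = s n := by
  have h1 : lam s (X ^ n * (X ^ e - 1)) = 0 := gen_dvd hs (he.mul_left _)
  rw [mul_sub, mul_one, ← pow_add, map_sub, lam_X_pow, lam_X_pow] at h1
  exact sub_eq_zero.1 h1

lemma period_mod {s : ℕ → ZMod 2} {e : ℕ} (h : ∀ n, s (n + e) = s n) (n : ℕ) :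
    s (n % e) = s n := by
  have key : ∀ m k, s (m + e * k) = s m := by
    intro m k
    induction k with
    | zero => simp
    | succ k ih => rw [mul_add, mul_one, ← add_assoc, h, ih]
  conv_rhs => rw [← Nat.mod_add_div n e]
  rw [key]

/-- shifted sequences -/
def sh (s : ℕ → ZMod 2) (t : ℕ) : ℕ → ZMod 2 := fun n => s (n + t)

lemma gen_sh {f : (ZMod 2)[X]} {s : ℕ → ZMod 2} (hs : Generates f s) (t : ℕ) :
    Generates f (sh s t) := by
  intro n
  have := hs (n + t)
  simp only [sh]
  rw [← this]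
  refine Finset.sum_congr rfl fun j _ => ?_
  rw [show n + j + t = n + t + j by ring]

lemma gen_add {f : (ZMod 2)[X]} {s s' : ℕ → ZMod 2} (hs : Generates f s) (hs' : Generates f s') :
    Generates f (s + s') := by
  intro n
  simp only [Pi.add_apply, mul_add, Finset.sum_add_distrib]
  rw [hs n, hs' n, add_zero]

section fold

variable {r₁ r₂ : ℕ} (h : Nat.Coprime r₁ r₂)

lemma idx_of (c : ℕ) (a : ZMod r₁) (b : ZMod r₂) (hc : c < r₁ * r₂)
    (h1 : (c : ZMod r₁) = a) (h2 : (c : ZMod r₂) = b) : idx h a b = c := by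
  have hcast : (ZMod.chineseRemainder h).symm (a, b) = (c : ZMod (r₁ * r₂)) := by
    rw [RingEquiv.symm_apply_eq, map_natCast]
    ext
    · simp [← h1]
    · simp [← h2]
  rw [idx, hcast, ZMod.val_natCast, Nat.mod_eq_of_lt hc]

lemma idx_add [NeZero (r₁ * r₂)] (a i : ZMod r₁) (b j : ZMod r₂) :
    idx h (a + i) (b + j) = (idx h a b + idx h i j) % (r₁ * r₂) := by
  have : (ZMod.chineseRemainder h).symm (a + i, b + j) =
      (ZMod.chineseRemainder h).symm (a, b) + (ZMod.chineseRemainder h).symm (i, j) := by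
    rw [← map_add]
    rfl
  rw [idx, this, ZMod.val_add]
  rfl

lemma idx_zero : idx h (0 : ZMod r₁) (0 : ZMod r₂) = 0 := by
  have : ((0 : ZMod r₁), (0 : ZMod r₂)) = 0 := rfl
  rw [idx, this, map_zero, ZMod.val_zero]

lemma shift_fold [NeZero (r₁ * r₂)] {s : ℕ → ZMod 2} (hs : ∀ n, s (n + r₁ * r₂) = s n)
    (i : ZMod r₁) (j : ZMod r₂) : shift (fold h s) i j = fold h (sh s (idx h i j)) := by
  ext a b
  simp only [shift, fold, sh]
  rw [idx_add, period_mod hs]

lemma window_fold [NeZero (r₁ * r₂)] {s : ℕ → ZMod 2} (hs : ∀ n, s (n + r₁ * r₂) = s n)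
    (n₁ n₂ : ℕ) (i : ZMod r₁) (j : ZMod r₂) :
    window n₁ n₂ (fold h s) i j = window n₁ n₂ (fold h (sh s (idx h i j))) 0 0 := by
  ext a b
  have := congrFun (congrFun (shift_fold h hs i j) ((a : ℕ) : ZMod r₁)) ((b : ℕ) : ZMod r₂)
  simp only [window, shift, zero_add] at this ⊢
  rw [← this, add_comm i, add_comm j]

/-- every sequence index is attained by folding -/
lemma fold_injective [NeZero (r₁ * r₂)] {s s' : ℕ → ZMod 2} (hs : ∀ n, s (n + r₁ * r₂) = s n)
    (hs' : ∀ n, s' (n + r₁ * r₂) = s' n) (hf : fold h s = fold h s') : s = s' := by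
  ext n
  rw [← period_mod hs, ← period_mod hs']
  have hlt : n % (r₁ * r₂) < r₁ * r₂ := Nat.mod_lt _ (Nat.pos_of_ne_zero (NeZero.ne _))
  have h1 := idx_of h (n % (r₁ * r₂)) _ _ hlt rfl rfl
  have h2 := congrFun (congrFun hf ((n % (r₁ * r₂) : ℕ) : ZMod r₁)) ((n % (r₁ * r₂) : ℕ) : ZMod r₂)
  simp only [fold] at h2
  rwa [h1] at h2

end fold

lemma two_eq : ∀ x y : ZMod 2, x + y = 0 → x = y := by decide

lemma seq_eq {s s' : ℕ → ZMod 2} (h : s + s' = 0) : s = s' := by
  ext n
  exact two_eq _ _ (congrFun h n)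

lemma lam_comb {s : ℕ → ZMod 2} {g : (ZMod 2)[X]} (hs : ∀ n, lam s (X ^ n * g) = 0)
    (q : (ZMod 2)[X]) : lam s (q * g) = 0 := by
  induction q using Polynomial.induction_on' with
  | add p q hp hq => rw [add_mul, map_add, hp, hq, add_zero]
  | monomial n a =>
    have : (monomial n a * g : (ZMod 2)[X]) = a • (X ^ n * g) := by
      rw [smul_eq_C_mul, ← C_mul_X_pow_eq_monomial]; ring
    rw [this, map_smul, hs n, smul_zero]

/-- nonzero sequences generated by an irreducible polynomial have minimal period its exponent -/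
lemma sh_injective {f : (ZMod 2)[X]} (hirr : Irreducible f) {e : ℕ} (he : IsExponent f e)
    {s : ℕ → ZMod 2} (hs : Generates f s) (hs0 : s ≠ 0) {t t' : ℕ} (ht' : t' < e) (hlt : t < t')
    (hss : sh s t = sh s t') : False := by
  apply hs0
  have hfX : ¬ f ∣ X := by
    intro h
    have h1 : f ∣ X ^ e := h.trans (dvd_pow_self X (by omega))
    have h2 := dvd_sub h1 he.1.2
    rw [sub_sub_cancel] at h2
    exact hirr.not_isUnit (isUnit_of_dvd_one h2)
  have hnd : ¬ f ∣ X ^ t' - X ^ t := by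
    intro h
    have e1 : (X ^ t' - X ^ t : (ZMod 2)[X]) = X ^ t * (X ^ (t' - t) - 1) := by
      rw [mul_sub, ← pow_add, mul_one, Nat.add_sub_cancel' hlt.le]
    rw [e1] at h
    rcases hirr.prime.dvd_or_dvd h with h1 | h1
    · exact hfX (hirr.prime.dvd_of_dvd_pow h1)
    · have := he.2 (show 1 ≤ t' - t ∧ f ∣ X ^ (t' - t) - 1 from ⟨by omega, h1⟩)
      omega
  obtain ⟨u, v, huv⟩ := (hirr.coprime_iff_not_dvd.2 hnd)
  have hg : ∀ q, lam s (q * (X ^ t' - X ^ t)) = 0 := by
    apply lam_comb
    intro n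
    rw [mul_sub, ← pow_add, ← pow_add, map_sub, lam_X_pow, lam_X_pow]
    have := congrFun hss n
    simp only [sh] at this
    rw [this, sub_self]
  ext n
  have h1 : lam s (X ^ n) = 0 := by
    have e1 : (X ^ n : (ZMod 2)[X]) = (X ^ n * u) * f + (X ^ n * v) * (X ^ t' - X ^ t) := by
      linear_combination (-X ^ n) * huv
    rw [e1, map_add, gen_mul hs, hg, add_zero]
  rw [lam_X_pow] at h1
  exact h1

lemma sh_eq {f : (ZMod 2)[X]} (hirr : Irreducible f) {e : ℕ} (he : IsExponent f e)
    {s : ℕ → ZMod 2} (hs : Generates f s) (hs0 : s ≠ 0) {t t' : ℕ} (ht : t < e) (ht' : t' < e)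
    (hss : sh s t = sh s t') : t = t' := by
  rcases lt_trichotomy t t' with h | h | h
  · exact (sh_injective hirr he hs hs0 ht' h hss).elim
  · exact h
  · exact (sh_injective hirr he hs hs0 ht h hss.symm).elim

/-- the solutions of the recurrence, with surjectivity of an injective window map -/
lemma surj_of_inj (f : (ZMod 2)[X]) (hmon : f.Monic) {n₁ n₂ : ℕ} (hdeg : f.natDegree = n₁ * n₂)
    (W : (ℕ → ZMod 2) →ₗ[ZMod 2] (Fin n₁ → Fin n₂ → ZMod 2))
    (hinj : ∀ s, Generates f s → W s = 0 → s = 0) (M : Fin n₁ → Fin n₂ → ZMod 2) :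
    ∃ s, Generates f s ∧ W s = M := by
  let E : LinearRecurrence (ZMod 2) := ⟨f.natDegree, fun j => f.coeff j⟩
  have hE : ∀ s, E.IsSolution s → Generates f s := by
    intro s hs n
    have h1 := hs n
    simp only [E] at h1
    rw [Finset.sum_range_succ, hmon.coeff_natDegree, one_mul, h1, Finset.sum_range]
    exact CharTwo.add_self_eq_zero _
  let φ : E.solSpace →ₗ[ZMod 2] (Fin n₁ → Fin n₂ → ZMod 2) := W.comp E.solSpace.subtype
  have hφ : Function.Injective φ := by
    rw [← LinearMap.ker_eq_bot, LinearMap.ker_eq_bot']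
    rintro ⟨s, hs⟩ h0
    have : s = 0 := hinj s (hE s hs) h0
    exact Subtype.ext this
  have hfin : Module.finrank (ZMod 2) E.solSpace =
      Module.finrank (ZMod 2) (Fin n₁ → Fin n₂ → ZMod 2) := by
    rw [E.toInit.finrank_eq]
    simp only [E, Module.finrank_pi_fintype, Finset.sum_const,
      Finset.card_univ, Fintype.card_fin, smul_eq_mul, hdeg, Module.finrank_self, mul_one]
  have : FiniteDimensional (ZMod 2) E.solSpace := Module.Finite.equiv E.toInit.symm
  have hsurj := (LinearMap.injective_iff_surjective_of_finrank_eq_finrank hfin).1 hφ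
  obtain ⟨⟨s, hs⟩, hM⟩ := hsurj M
  exact ⟨s, hE s hs, hM⟩

/-- the window map of a folded sequence, as a linear map -/
def W {r₁ r₂ : ℕ} (h : Nat.Coprime r₁ r₂) (n₁ n₂ : ℕ) :
    (ℕ → ZMod 2) →ₗ[ZMod 2] (Fin n₁ → Fin n₂ → ZMod 2) where
  toFun s := window n₁ n₂ (fold h s) 0 0
  map_add' _ _ := rfl
  map_smul' _ _ := rfl

theorem prac_of_inj {r₁ r₂ n₁ n₂ : ℕ} (h : Nat.Coprime r₁ r₂) [NeZero (r₁ * r₂)]
    (f : (ZMod 2)[X]) (hirr : Irreducible f) (hmon : f.Monic) (hdeg : f.natDegree = n₁ * n₂)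
    (he : IsExponent f (r₁ * r₂)) (hdvd : r₁ * r₂ ∣ 2 ^ (n₁ * n₂) - 1)
    (hinj : ∀ s, Generates f s → W h n₁ n₂ s = 0 → s = 0)
    (C : Set (Arr r₁ r₂)) (hC : IsFolding h f C) : IsPRAC r₁ r₂ n₁ n₂ C := by
  have hper : ∀ s, Generates f s → ∀ n, s (n + r₁ * r₂) = s n :=
    fun s hs => gen_period hs he.1.2
  have hidx : ∀ (i : ZMod r₁) (j : ZMod r₂), idx h i j < r₁ * r₂ := fun i j => ZMod.val_lt _
  have hidx_inj : ∀ (i i' : ZMod r₁) (j j' : ZMod r₂), idx h i j = idx h i' j' →
      i = i' ∧ j = j' := by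
    intro i i' j j' hij
    have h1 := ZMod.val_injective _ hij
    have h2 := (ZMod.chineseRemainder h).symm.injective h1
    exact ⟨congrArg Prod.fst h2, congrArg Prod.snd h2⟩
  refine ⟨hdvd, ?_, ?_⟩
  · intro M hM
    obtain ⟨s, hs, hsM⟩ := surj_of_inj f hmon hdeg (W h n₁ n₂) hinj M
    have hs0 : s ≠ 0 := by
      rintro rfl
      rw [map_zero] at hsM
      exact hM hsM.symm
    obtain ⟨A, ⟨hAC, i, j, hA⟩, huniq⟩ := hC.2 s hs hs0
    have key : ∀ (B : Arr r₁ r₂) (i' : ZMod r₁) (j' : ZMod r₂), B ∈ C →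
        window n₁ n₂ B i' j' = M → ∃ τ, Generates f τ ∧ τ ≠ 0 ∧ B = fold h τ ∧
          sh τ (idx h i' j') = s := by
      intro B i' j' hB hBM
      obtain ⟨τ, hτ, hτ0, rfl⟩ := hC.1 B hB
      refine ⟨τ, hτ, hτ0, rfl, ?_⟩
      rw [window_fold h (hper τ hτ)] at hBM
      apply seq_eq
      refine hinj _ (gen_add (gen_sh hτ _) hs) ?_
      rw [map_add, hsM]
      change window n₁ n₂ (fold h (sh τ (idx h i' j'))) 0 0 + M = 0
      rw [hBM]
      ext a b
      exact CharTwo.add_self_eq_zero _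
    have hAw : window n₁ n₂ A i j = M := by
      rw [← hsM]
      change _ = window n₁ n₂ (fold h s) 0 0
      rw [hA]
      ext a b
      simp only [window, shift]
      rw [zero_add, zero_add, add_comm i, add_comm j]
    refine ⟨(A, i, j), ⟨hAC, hAw⟩, ?_⟩
    rintro ⟨A', i', j'⟩ ⟨hA'C, hA'M⟩
    obtain ⟨τ', hτ', hτ'0, hA'τ, hsh'⟩ := key A' i' j' hA'C hA'M
    have hAA : A' = A := by
      apply huniq
      refine ⟨hA'C, i', j', ?_⟩
      rw [hA'τ, shift_fold h (hper τ' hτ'), hsh']
    subst hAA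
    obtain ⟨τ, hτ, hτ0, hAτ, hsh⟩ := key A' i j hAC hAw
    have hττ : τ = τ' := fold_injective h (hper τ hτ) (hper τ' hτ') (hAτ.symm.trans hA'τ)
    subst hττ
    have h1 := sh_eq hirr he hτ hτ0 (hidx i' j') (hidx i j) (hsh'.trans hsh.symm)
    obtain ⟨h2, h3⟩ := hidx_inj _ _ _ _ h1
    rw [h2, h3]
  · intro A hA B hB
    obtain ⟨σ, hσ, hσ0, rfl⟩ := hC.1 A hA
    have fin : ∀ τ, Generates f τ → B = fold h τ → σ + τ ≠ 0 → ∃ D ∈ C, ∃ (i : ZMod r₁)
        (j : ZMod r₂), fold h σ + B = shift D i j := by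
      intro τ hτ hBτ hne
      obtain ⟨D, ⟨hD, i, j, hDs⟩, -⟩ := hC.2 (σ + τ) (gen_add hσ hτ) hne
      refine ⟨D, hD, i, j, ?_⟩
      rw [← hDs, hBτ]
      rfl
    rcases hB with ⟨hBC, hne⟩ | ⟨i, j, hij, hBs⟩
    · obtain ⟨τ, hτ, -, hBτ⟩ := hC.1 B hBC
      refine fin τ hτ hBτ fun h0 => hne ?_
      rw [hBτ, seq_eq h0]
    · refine fin (sh σ (idx h i j)) (gen_sh hσ _) (by rw [hBs, shift_fold h (hper σ hσ)]) ?_
      intro h0
      have h1 := seq_eq h0
      have h2 : sh σ (idx h 0 0) = sh σ (idx h i j) := by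
        rw [idx_zero, ← h1]
        rfl
      have h3 := sh_eq hirr he hσ hσ0 (hidx 0 0) (hidx i j) h2
      obtain ⟨h4, h5⟩ := hidx_inj _ _ _ _ h3
      exact hij (by rw [← h4, ← h5])

/-- a linear relation between the entries of a window excludes a pseudo-random array code -/
theorem not_prac {r₁ r₂ n₁ n₂ : ℕ} (h : Nat.Coprime r₁ r₂) [NeZero (r₁ * r₂)]
    (g : (ZMod 2)[X]) (hper : g ∣ X ^ (r₁ * r₂) - 1) (T : Finset (Fin n₁ × Fin n₂))
    (hT : T.Nonempty)
    (hg : g ∣ ∑ p ∈ T, X ^ idx h (((p.1 : ℕ) : ZMod r₁)) (((p.2 : ℕ) : ZMod r₂)))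
    (C : Set (Arr r₁ r₂)) (hC : IsFolding h g C) : ¬ IsPRAC r₁ r₂ n₁ n₂ C := by
  intro hP
  obtain ⟨⟨a0, b0⟩, hab⟩ := hT
  let M : Fin n₁ → Fin n₂ → ZMod 2 := fun a b => if (a, b) = (a0, b0) then 1 else 0
  have hM : M ≠ 0 := by
    intro h0
    have := congrFun (congrFun h0 a0) b0
    simp [M] at this
  obtain ⟨⟨A, i, j⟩, ⟨hA, hw⟩, -⟩ := hP.windows M hM
  obtain ⟨σ, hσ, -, rfl⟩ := hC.1 A hA
  simp only at hw
  rw [window_fold h (fun n => gen_period hσ hper n)] at hw
  set s := sh σ (idx h i j) with hs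
  have hsg : Generates g s := gen_sh hσ _
  have h1 := gen_dvd hsg hg
  rw [map_sum] at h1
  have h2 : ∑ p ∈ T, M p.1 p.2 = 0 := by
    rw [← h1]
    refine Finset.sum_congr rfl fun p _ => ?_
    rw [lam_X_pow, ← hw]
    simp only [window, fold, zero_add]
  have h3 : ∑ p ∈ T, M p.1 p.2 = 1 := by
    rw [Finset.sum_eq_single (a0, b0)]
    · simp [M]
    · rintro ⟨a, b⟩ - hne
      simp only [M]
      rw [if_neg hne]
    · intro hn
      exact absurd hab hn
  rw [h2] at h3
  exact absurd h3 (by decide)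

/-- folding sets exist -/
lemma exists_isFolding {r₁ r₂ : ℕ} (h : Nat.Coprime r₁ r₂) (f : (ZMod 2)[X]) :
    ∃ C : Set (Arr r₁ r₂), IsFolding h f C := by
  classical
  let R : Setoid (Arr r₁ r₂) :=
    { r := fun A B => ∃ (i : ZMod r₁) (j : ZMod r₂), A = shift B i j
      iseqv := by
        refine ⟨fun A => ⟨0, 0, ?_⟩, ?_, ?_⟩
        · ext a b; simp [shift]
        · rintro A B ⟨i, j, rfl⟩
          refine ⟨-i, -j, ?_⟩
          ext a b; simp [shift]
        · rintro A B D ⟨i, j, rfl⟩ ⟨i', j', rfl⟩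
          refine ⟨i + i', j + j', ?_⟩
          ext a b; simp only [shift, add_assoc] }
  let S : Set (Arr r₁ r₂) := {A | ∃ s, Generates f s ∧ s ≠ 0 ∧ A = fold h s}
  have hch : ∀ q : Quotient R, ∃ A : Arr r₁ r₂,
      (∃ B ∈ S, Quotient.mk R B = q) → (A ∈ S ∧ Quotient.mk R A = q) := by
    intro q
    by_cases hq : ∃ B ∈ S, Quotient.mk R B = q
    · obtain ⟨B, hB, hBq⟩ := hq
      exact ⟨B, fun _ => ⟨hB, hBq⟩⟩
    · exact ⟨0, fun h' => absurd h' hq⟩
  choose rep hrep using hch
  refine ⟨{A | A ∈ S ∧ A = rep (Quotient.mk R A)}, fun A hA => hA.1, ?_⟩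
  intro s hs hs0
  have hsS : fold h s ∈ S := ⟨s, hs, hs0, rfl⟩
  obtain ⟨h1, h2⟩ := hrep (Quotient.mk R (fold h s)) ⟨_, hsS, rfl⟩
  refine ⟨rep (Quotient.mk R (fold h s)), ⟨⟨h1, by rw [h2]⟩, ?_⟩, ?_⟩
  · exact Quotient.exact h2.symm
  · rintro A ⟨⟨-, hA⟩, hAs⟩
    have : Quotient.mk R (fold h s) = Quotient.mk R A := Quotient.sound hAs
    rw [this]
    exact hA

/-! ### Irreducibility and exponents -/

lemma irreducible_dvd (g : (ZMod 2)[X]) (hg : Irreducible g) (α : AdjoinRoot g)
    (hα : α = AdjoinRoot.root g) : α ^ (2 ^ g.natDegree) = α := by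
  have : Fact (Irreducible g) := ⟨hg⟩
  have hfd : FiniteDimensional (ZMod 2) (AdjoinRoot g) :=
    (AdjoinRoot.powerBasis hg.ne_zero).finite
  have : Finite (AdjoinRoot g) := Module.finite_of_finite (ZMod 2)
  let _ : Fintype (AdjoinRoot g) := Fintype.ofFinite _
  have hcard : Fintype.card (AdjoinRoot g) = 2 ^ g.natDegree := by
    rw [Module.card_eq_pow_finrank (K := ZMod 2) (V := AdjoinRoot g), ZMod.card,
      (AdjoinRoot.powerBasis hg.ne_zero).finrank, AdjoinRoot.powerBasis_dim]
  rw [← hcard]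
  exact FiniteField.pow_card α

lemma root_pow_eq_one (g : (ZMod 2)[X]) (n : ℕ) :
    g ∣ X ^ n - 1 ↔ (AdjoinRoot.root g) ^ n = 1 := by
  rw [← AdjoinRoot.mk_eq_zero, map_sub, map_pow, AdjoinRoot.mk_X, map_one, sub_eq_zero]

/-- a criterion of irreducibility for divisors of `X^585 - 1` of degree `12` -/
lemma irreducible_of_coprime (f : (ZMod 2)[X]) (hdeg : f.natDegree = 12)
    (h585 : f ∣ X ^ 585 - 1) (h45 : IsCoprime f (X ^ 45 - 1)) : Irreducible f := by
  have hf0 : f ≠ 0 := by
    rintro rfl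
    simp at hdeg
  have hfu : ¬ IsUnit f := by
    intro hu
    rw [natDegree_eq_zero_of_isUnit hu] at hdeg
    omega
  by_contra hirr
  -- a factor of degree at most 6
  obtain ⟨a, hau, had, haf⟩ : ∃ a : (ZMod 2)[X], ¬ IsUnit a ∧ a.natDegree ≤ 6 ∧ a ∣ f := by
    rw [irreducible_iff] at hirr
    push Not at hirr
    obtain ⟨a, b, hab, ha, hb⟩ := hirr hfu
    have ha0 : a ≠ 0 := by rintro rfl; rw [zero_mul] at hab; exact hf0 hab
    have hb0 : b ≠ 0 := by rintro rfl; rw [mul_zero] at hab; exact hf0 hab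
    have hd : a.natDegree + b.natDegree = 12 := by
      rw [← natDegree_mul ha0 hb0, ← hab, hdeg]
    rcases le_total a.natDegree b.natDegree with h | h
    · exact ⟨a, ha, by omega, ⟨b, hab⟩⟩
    · exact ⟨b, hb, by omega, ⟨a, by rw [hab, mul_comm]⟩⟩
  have ha0 : a ≠ 0 := by rintro rfl; exact hf0 (zero_dvd_iff.1 haf)
  obtain ⟨g, hg, hga⟩ := WfDvdMonoid.exists_irreducible_factor hau ha0
  have hgd : g.natDegree ≤ 6 := (natDegree_le_of_dvd hga ha0).trans had
  have hgpos : 0 < g.natDegree := hg.natDegree_pos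
  have hgf := hga.trans haf
  have h1 : (AdjoinRoot.root g) ^ 585 = 1 := (root_pow_eq_one g 585).1 (hgf.trans h585)
  have h2 := irreducible_dvd g hg _ rfl
  have : Fact (Irreducible g) := ⟨hg⟩
  have hr0 : AdjoinRoot.root g ≠ 0 := by
    intro h0
    rw [h0] at h1
    simp at h1
  have h3 : (AdjoinRoot.root g) ^ (2 ^ g.natDegree - 1) = 1 := by
    have h4 : (AdjoinRoot.root g) ^ (2 ^ g.natDegree - 1) * AdjoinRoot.root g =
        1 * AdjoinRoot.root g := by
      rw [← pow_succ, Nat.sub_add_cancel (Nat.one_le_two_pow), h2, one_mul]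
    exact mul_right_cancel₀ hr0 h4
  have h5 := Nat.dvd_gcd (orderOf_dvd_of_pow_eq_one h1) (orderOf_dvd_of_pow_eq_one h3)
  have h6 : Nat.gcd 585 (2 ^ g.natDegree - 1) ∣ 45 := by
    generalize g.natDegree = d at hgd hgpos
    interval_cases d <;> decide
  have h7 : (AdjoinRoot.root g) ^ 45 = 1 := orderOf_dvd_iff_pow_eq_one.1 (h5.trans h6)
  have h8 := (root_pow_eq_one g 45).2 h7
  exact hg.not_isUnit (h45.isUnit_of_dvd' hgf h8)

lemma isExponent_of_coprime (f : (ZMod 2)[X]) (hirr : Irreducible f)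
    (h585 : f ∣ X ^ 585 - 1) (h45 : IsCoprime f (X ^ 45 - 1)) (h117 : IsCoprime f (X ^ 117 - 1))
    (h195 : IsCoprime f (X ^ 195 - 1)) : IsExponent f 585 := by
  have hnd : ∀ k, IsCoprime f (X ^ k - 1) → (AdjoinRoot.root f) ^ k ≠ 1 := by
    intro k hk h
    exact hirr.not_isUnit (hk.isUnit_of_dvd' dvd_rfl ((root_pow_eq_one f k).2 h))
  have hord : orderOf (AdjoinRoot.root f) = 585 := by
    refine orderOf_eq_of_pow_and_pow_div_prime (by norm_num) ((root_pow_eq_one f 585).1 h585) ?_
    intro p hp hdvd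
    have h1 : p ∣ 3 ^ 2 * 5 * 13 := by norm_num; exact hdvd
    have h2 : p = 3 ∨ p = 5 ∨ p = 13 := by
      rcases (Nat.Prime.dvd_mul hp).1 h1 with h3 | h3
      · rcases (Nat.Prime.dvd_mul hp).1 h3 with h4 | h4
        · left; exact (Nat.prime_dvd_prime_iff_eq hp Nat.prime_three).1 (hp.dvd_of_dvd_pow h4)
        · right; left; exact (Nat.prime_dvd_prime_iff_eq hp Nat.prime_five).1 h4
      · right; right; exact (Nat.prime_dvd_prime_iff_eq hp (by norm_num)).1 h3
    rcases h2 with rfl | rfl | rfl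
    · exact hnd 195 h195
    · exact hnd 117 h117
    · exact hnd 45 h45
  refine ⟨⟨by norm_num, h585⟩, ?_⟩
  rintro e ⟨he, hfe⟩
  rw [root_pow_eq_one] at hfe
  have := orderOf_dvd_of_pow_eq_one hfe
  rw [hord] at this
  exact Nat.le_of_dvd he this

/-- vanishing of the first `12` terms suffices -/
lemma eq_zero_of_init (f : (ZMod 2)[X]) (hmon : f.Monic) (s : ℕ → ZMod 2) (hs : Generates f s)
    (h0 : ∀ j < f.natDegree, s j = 0) : s = 0 := by
  ext n
  induction n using Nat.strong_induction_on with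
  | _ n ih =>
    by_cases hn : n < f.natDegree
    · exact h0 n hn
    · push Not at hn
      have h1 := hs (n - f.natDegree)
      rw [Finset.sum_range_succ, hmon.coeff_natDegree, one_mul, Nat.sub_add_cancel hn] at h1
      rw [Finset.sum_eq_zero, zero_add] at h1
      · exact h1
      · intro j hj
        rw [Finset.mem_range] at hj
        rw [ih (n - f.natDegree + j) (by omega)]
        simp

/-! ### The certificates -/

/-- the number with binary digits `1` at the places in `L` (with cancellation) -/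
def xors (L : List ℕ) : ℕ := L.foldr (fun c m => 2 ^ c ^^^ m) 0

lemma P_xors (L : List ℕ) : P (xors L) = (L.map fun c => (X ^ c : (ZMod 2)[X])).sum := by
  induction L with
  | nil => simp [xors, P_zero]
  | cons c L ih =>
    rw [List.map_cons, List.sum_cons, ← ih, ← P_two_pow, ← P_xor]
    rfl

lemma zero_of_cert {f : (ZMod 2)[X]} {F : ℕ} (hf : f = P F) (hF : F < 2 ^ 13) {s : ℕ → ZMod 2}
    (hs : Generates f s) {j : ℕ} (S : List ℕ) (q : ℕ) (hcl : cl 13 q F = xors (j :: S))
    (hS : ∀ c ∈ S, s c = 0) : s j = 0 := by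
  have h1 := congrArg P hcl
  rw [P_cl 13 q F hF, P_xors, ← hf] at h1
  have h2 := gen_mul hs (P q)
  rw [h1, List.map_cons, List.sum_cons, map_add, lam_X_pow] at h2
  have h3 : lam s ((S.map fun c => (X ^ c : (ZMod 2)[X])).sum) = 0 := by
    clear hcl h1 h2
    induction S with
    | nil => simp
    | cons c S ih =>
      rw [List.map_cons, List.sum_cons, map_add, lam_X_pow, hS c List.mem_cons_self,
        ih fun c hc => hS c (List.mem_cons_of_mem _ hc), add_zero]
  rwa [h3, add_zero] at h2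

lemma neg_one_eq : (-1 : (ZMod 2)[X]) = 1 := by
  have : ((2 : ℕ) : (ZMod 2)[X]) = 0 := CharP.cast_eq_zero _ 2
  have h2 : (2 : (ZMod 2)[X]) = 0 := by exact_mod_cast this
  linear_combination -h2

lemma P_pow_sub (e : ℕ) : P (2 ^ e ^^^ 1) = X ^ e - 1 := by
  rw [P_xor, P_two_pow, P_one, sub_eq_add_neg, neg_one_eq]

lemma dvd_of_cert {f : (ZMod 2)[X]} {F : ℕ} (hf : f = P F) (hF : F < 2 ^ 13) (q e : ℕ)
    (h : cl 13 q F = 2 ^ e ^^^ 1) : f ∣ X ^ e - 1 := by
  refine ⟨P q, ?_⟩
  rw [← P_pow_sub, ← h, P_cl 13 q F hF, ← hf, mul_comm]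

lemma coprime_of_cert {f : (ZMod 2)[X]} {F : ℕ} (hf : f = P F) (hF : F < 2 ^ 13) (x y e : ℕ)
    (hy : y < 2 ^ 12) (h : cl 13 x F ^^^ cl 12 (2 ^ e ^^^ 1) y = 1) :
    IsCoprime f (X ^ e - 1) := by
  refine ⟨P x, P y, ?_⟩
  have h1 := congrArg P h
  rw [P_xor, P_cl 13 x F hF, P_cl 12 _ y hy, P_one, P_pow_sub, ← hf] at h1
  linear_combination h1

lemma cop : Nat.Coprime 5 117 := by norm_num

instance : NeZero (5 * 117) := ⟨by norm_num⟩

/-- the polynomial `f₁` -/
noncomputable def f₁ : (ZMod 2)[X] := X ^ 12 + X ^ 11 + X ^ 5 + X + 1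

lemma f₁_eq : f₁ = P 6179 := by
  have h : (6179 : ℕ) = xors [12, 11, 5, 1, 0] := by decide +kernel
  rw [h, P_xors]
  simp only [List.map_cons, List.map_nil, List.sum_cons, List.sum_nil, pow_zero, pow_one, f₁]
  ring

lemma f₁_monic : f₁.Monic := by
  unfold f₁
  monicity!

lemma f₁_deg : f₁.natDegree = 12 := by
  unfold f₁
  compute_degree!

lemma f₁_dvd : f₁ ∣ X ^ 585 - 1 :=
  dvd_of_cert f₁_eq (by norm_num)
    61521608518764134466052408292220647286065266174883529667541603247632475938276938348398096939715060532667190655198976184640631222604779257354707746585335670597410452823531871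
    585 (by decide +kernel)

lemma f₁_cop195 : IsCoprime f₁ (X ^ 195 - 1) :=
  coprime_of_cert f₁_eq (by norm_num) 10404665847687021329208359828265991142985522998641178432565 766 195
    (by norm_num) (by decide +kernel)

lemma f₁_cop117 : IsCoprime f₁ (X ^ 117 - 1) :=
  coprime_of_cert f₁_eq (by norm_num) 16056742397892208150031392088360772 333 117
    (by norm_num) (by decide +kernel)

lemma f₁_cop45 : IsCoprime f₁ (X ^ 45 - 1) :=
  coprime_of_cert f₁_eq (by norm_num) 14839002726180 1517 45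
    (by norm_num) (by decide +kernel)

lemma f₁_irr : Irreducible f₁ :=
  irreducible_of_coprime f₁ f₁_deg f₁_dvd f₁_cop45

lemma f₁_exp : IsExponent f₁ (5 * 117) := by
  have e : (5 * 117 : ℕ) = 585 := by norm_num
  rw [e]
  exact isExponent_of_coprime f₁ f₁_irr f₁_dvd f₁_cop45 f₁_cop117 f₁_cop195

lemma f₁_inj (s : ℕ → ZMod 2) (hs : Generates f₁ s) (hW : W cop 3 4 s = 0) : s = 0 := by
  have hw : ∀ (c : ℕ) (a : Fin 3) (b : Fin 4), c < 5 * 117 →
      (c : ZMod 5) = (((a : ℕ) : ℕ) : ZMod 5) → (c : ZMod 117) = (((b : ℕ) : ℕ) : ZMod 117) →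
      s c = 0 := by
    intro c a b hc h1 h2
    have h3 := congrFun (congrFun hW a) b
    change s (idx cop (0 + (((a : ℕ) : ℕ) : ZMod 5)) (0 + (((b : ℕ) : ℕ) : ZMod 117))) = 0 at h3
    rwa [zero_add, zero_add, idx_of cop c _ _ hc h1 h2] at h3
  have p0 : s 0 = 0 := hw 0 0 0 (by norm_num) (by decide) (by decide)
  have p235 : s 235 = 0 := hw 235 0 1 (by norm_num) (by decide) (by decide)
  have p470 : s 470 = 0 := hw 470 0 2 (by norm_num) (by decide) (by decide)
  have p120 : s 120 = 0 := hw 120 0 3 (by norm_num) (by decide) (by decide)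
  have p351 : s 351 = 0 := hw 351 1 0 (by norm_num) (by decide) (by decide)
  have p1 : s 1 = 0 := hw 1 1 1 (by norm_num) (by decide) (by decide)
  have p236 : s 236 = 0 := hw 236 1 2 (by norm_num) (by decide) (by decide)
  have p471 : s 471 = 0 := hw 471 1 3 (by norm_num) (by decide) (by decide)
  have p117 : s 117 = 0 := hw 117 2 0 (by norm_num) (by decide) (by decide)
  have p352 : s 352 = 0 := hw 352 2 1 (by norm_num) (by decide) (by decide)
  have p2 : s 2 = 0 := hw 2 2 2 (by norm_num) (by decide) (by decide)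
  have p237 : s 237 = 0 := hw 237 2 3 (by norm_num) (by decide) (by decide)
  have z3 : s 3 = 0 := zero_of_cert f₁_eq (by norm_num) hs [0, 120, 236, 352, 237]
    4456959545273116940260209553966897702525351743333434572144543168237474810490427786763311949838759357351
    (by decide +kernel) (by
      intro c hc
      simp only [List.mem_cons, List.not_mem_nil, or_false] at hc
      rcases hc with rfl | rfl | rfl | rfl | rfl <;> assumption)
  have z4 : s 4 = 0 := zero_of_cert f₁_eq (by norm_num) hs [0, 470, 120, 1, 2]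
    1481078850914458812469404172355823810811127314419258005517703298317017048529571249564008805480615515844659119807582589065482221101990196077
    (by decide +kernel) (by
      intro c hc
      simp only [List.mem_cons, List.not_mem_nil, or_false] at hc
      rcases hc with rfl | rfl | rfl | rfl | rfl <;> assumption)
  have z5 : s 5 = 0 := zero_of_cert f₁_eq (by norm_num) hs [235, 470, 236, 352, 2, 237]
    1481078850914458812469404172355823812654270710800953981692967621490119169859970880812274610719567982042711539677845864683248495595606224540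
    (by decide +kernel) (by
      intro c hc
      simp only [List.mem_cons, List.not_mem_nil, or_false] at hc
      rcases hc with rfl | rfl | rfl | rfl | rfl | rfl <;> assumption)
  have z6 : s 6 = 0 := zero_of_cert f₁_eq (by norm_num) hs [0, 235, 120, 1, 352, 2, 237]
    4456959545273116940260209553966897729305272045929926741785104283456247010491587724843112558976217182557
    (by decide +kernel) (by
      intro c hc
      simp only [List.mem_cons, List.not_mem_nil, or_false] at hc
      rcases hc with rfl | rfl | rfl | rfl | rfl | rfl | rfl <;> assumption)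
  have z7 : s 7 = 0 := zero_of_cert f₁_eq (by norm_num) hs [470, 1, 352]
    1481078850914458812469404172355823812654270710800953981692967621490119120046800471469895352456984842856010158024494724837868039589105331518
    (by decide +kernel) (by
      intro c hc
      simp only [List.mem_cons, List.not_mem_nil, or_false] at hc
      rcases hc with rfl | rfl | rfl <;> assumption)
  have z8 : s 8 = 0 := zero_of_cert f₁_eq (by norm_num) hs [0, 235, 351, 1, 236, 117]
    2228479772636558470130104776983448851262675871666717286072271584118737160642320570414524989776653876449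
    (by decide +kernel) (by
      intro c hc
      simp only [List.mem_cons, List.not_mem_nil, or_false] at hc
      rcases hc with rfl | rfl | rfl | rfl | rfl | rfl <;> assumption)
  have z9 : s 9 = 0 := zero_of_cert f₁_eq (by norm_num) hs [120, 351, 1, 236, 352]
    2273463810355056498607752872028825135176468537514052314051179008914284065187768355984556522096214113470
    (by decide +kernel) (by
      intro c hc
      simp only [List.mem_cons, List.not_mem_nil, or_false] at hc
      rcases hc with rfl | rfl | rfl | rfl | rfl <;> assumption)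
  have z10 : s 10 = 0 := zero_of_cert f₁_eq (by norm_num) hs [470, 120, 351, 236, 117, 352, 237]
    1481078850914458812469404172355823813062684439614809702343223027263312453398555556042431048992779283897256079162740917282463840663297686528
    (by decide +kernel) (by
      intro c hc
      simp only [List.mem_cons, List.not_mem_nil, or_false] at hc
      rcases hc with rfl | rfl | rfl | rfl | rfl | rfl | rfl <;> assumption)
  have z11 : s 11 = 0 := zero_of_cert f₁_eq (by norm_num) hs [0, 470, 351, 471, 352, 237]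
    1510975872063894909488079042923546215389304890221602068415868526419864953924404872172994131378112938021010407235708305626637014654522759519
    (by decide +kernel) (by
      intro c hc
      simp only [List.mem_cons, List.not_mem_nil, or_false] at hc
      rcases hc with rfl | rfl | rfl | rfl | rfl | rfl <;> assumption)
  refine eq_zero_of_init f₁ f₁_monic s hs ?_
  rw [f₁_deg]
  intro j hj
  interval_cases j <;> assumption

/-- the polynomial `f₂` -/
noncomputable def f₂ : (ZMod 2)[X] := X ^ 12 + X ^ 10 + X ^ 9 + X ^ 6 + X ^ 3 + X + 1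

lemma f₂_eq : f₂ = P 5707 := by
  have h : (5707 : ℕ) = xors [12, 10, 9, 6, 3, 1, 0] := by decide +kernel
  rw [h, P_xors]
  simp only [List.map_cons, List.map_nil, List.sum_cons, List.sum_nil, pow_zero, pow_one, f₂]
  ring

lemma f₂_monic : f₂.Monic := by
  unfold f₂
  monicity!

lemma f₂_deg : f₂.natDegree = 12 := by
  unfold f₂
  compute_degree!

lemma f₂_dvd : f₂ ∣ X ^ 585 - 1 :=
  dvd_of_cert f₂_eq (by norm_num)
    45181245956106132244682401215394055590531323304238781669202407684022178064267877662629401868922931331743018816579263147769614046558986811474592356321080559703468277002997975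
    585 (by decide +kernel)

lemma f₂_cop195 : IsCoprime f₂ (X ^ 195 - 1) :=
  coprime_of_cert f₂_eq (by norm_num) 32019033829872528937598733167116410200347396458383374516076 2517 195
    (by norm_num) (by decide +kernel)

lemma f₂_cop117 : IsCoprime f₂ (X ^ 117 - 1) :=
  coprime_of_cert f₂_eq (by norm_num) 73202357763583626639602479841535376 1585 117
    (by norm_num) (by decide +kernel)

lemma f₂_cop45 : IsCoprime f₂ (X ^ 45 - 1) :=
  coprime_of_cert f₂_eq (by norm_num) 2127461822914 215 45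
    (by norm_num) (by decide +kernel)

lemma f₂_irr : Irreducible f₂ :=
  irreducible_of_coprime f₂ f₂_deg f₂_dvd f₂_cop45

lemma f₂_exp : IsExponent f₂ (5 * 117) := by
  have e : (5 * 117 : ℕ) = 585 := by norm_num
  rw [e]
  exact isExponent_of_coprime f₂ f₂_irr f₂_dvd f₂_cop45 f₂_cop117 f₂_cop195

lemma f₂_inj (s : ℕ → ZMod 2) (hs : Generates f₂ s) (hW : W cop 3 4 s = 0) : s = 0 := by
  have hw : ∀ (c : ℕ) (a : Fin 3) (b : Fin 4), c < 5 * 117 →
      (c : ZMod 5) = (((a : ℕ) : ℕ) : ZMod 5) → (c : ZMod 117) = (((b : ℕ) : ℕ) : ZMod 117) →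
      s c = 0 := by
    intro c a b hc h1 h2
    have h3 := congrFun (congrFun hW a) b
    change s (idx cop (0 + (((a : ℕ) : ℕ) : ZMod 5)) (0 + (((b : ℕ) : ℕ) : ZMod 117))) = 0 at h3
    rwa [zero_add, zero_add, idx_of cop c _ _ hc h1 h2] at h3
  have p0 : s 0 = 0 := hw 0 0 0 (by norm_num) (by decide) (by decide)
  have p235 : s 235 = 0 := hw 235 0 1 (by norm_num) (by decide) (by decide)
  have p470 : s 470 = 0 := hw 470 0 2 (by norm_num) (by decide) (by decide)
  have p120 : s 120 = 0 := hw 120 0 3 (by norm_num) (by decide) (by decide)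
  have p351 : s 351 = 0 := hw 351 1 0 (by norm_num) (by decide) (by decide)
  have p1 : s 1 = 0 := hw 1 1 1 (by norm_num) (by decide) (by decide)
  have p236 : s 236 = 0 := hw 236 1 2 (by norm_num) (by decide) (by decide)
  have p471 : s 471 = 0 := hw 471 1 3 (by norm_num) (by decide) (by decide)
  have p117 : s 117 = 0 := hw 117 2 0 (by norm_num) (by decide) (by decide)
  have p352 : s 352 = 0 := hw 352 2 1 (by norm_num) (by decide) (by decide)
  have p2 : s 2 = 0 := hw 2 2 2 (by norm_num) (by decide) (by decide)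
  have p237 : s 237 = 0 := hw 237 2 3 (by norm_num) (by decide) (by decide)
  have z3 : s 3 = 0 := zero_of_cert f₂_eq (by norm_num) hs [235, 236, 471, 117]
    2175397862789737701300062078522404710802225052690107863759746205646185698669752305278252288583237492347747569581872754345819221748607387320
    (by decide +kernel) (by
      intro c hc
      simp only [List.mem_cons, List.not_mem_nil, or_false] at hc
      rcases hc with rfl | rfl | rfl | rfl <;> assumption)
  have z4 : s 4 = 0 := zero_of_cert f₂_eq (by norm_num) hs [0, 120, 351, 236, 117]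
    1636587455040137211708223680139447215517130160788436340676437960451212725914660870759121890189130079655
    (by decide +kernel) (by
      intro c hc
      simp only [List.mem_cons, List.not_mem_nil, or_false] at hc
      rcases hc with rfl | rfl | rfl | rfl | rfl <;> assumption)
  have z5 : s 5 = 0 := zero_of_cert f₂_eq (by norm_num) hs [235, 470, 120, 351, 1, 471, 117, 352, 2, 237]
    2680989760139586594635554663735466934249511592078048302054805034263423382742967110617549108195381509935339970556782688528354783989499983890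
    (by decide +kernel) (by
      intro c hc
      simp only [List.mem_cons, List.not_mem_nil, or_false] at hc
      rcases hc with rfl | rfl | rfl | rfl | rfl | rfl | rfl | rfl | rfl | rfl <;> assumption)
  have z6 : s 6 = 0 := zero_of_cert f₂_eq (by norm_num) hs [235, 470, 120, 1, 117, 352, 237]
    1087698931394868850650031039261202353843188841527785021072809214326002584067013565204474336254165060683940390524473701845089483858739860590
    (by decide +kernel) (by
      intro c hc
      simp only [List.mem_cons, List.not_mem_nil, or_false] at hc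
      rcases hc with rfl | rfl | rfl | rfl | rfl | rfl | rfl <;> assumption)
  have z7 : s 7 = 0 := zero_of_cert f₂_eq (by norm_num) hs [0, 235, 120, 236, 471, 117, 352, 237]
    2175397862789737701300062078522404713514197095157859539172379735898475921587634280478184854637047706372502452667605034001199260388758747991
    (by decide +kernel) (by
      intro c hc
      simp only [List.mem_cons, List.not_mem_nil, or_false] at hc
      rcases hc with rfl | rfl | rfl | rfl | rfl | rfl | rfl | rfl <;> assumption)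
  have z8 : s 8 = 0 := zero_of_cert f₂_eq (by norm_num) hs [470, 120, 236, 2]
    1087698931394868850650031039261202355401112526345053931879873102823092834113056510743613848418735421457108575798946227669569156576911332444
    (by decide +kernel) (by
      intro c hc
      simp only [List.mem_cons, List.not_mem_nil, or_false] at hc
      rcases hc with rfl | rfl | rfl | rfl <;> assumption)
  have z9 : s 9 = 0 := zero_of_cert f₂_eq (by norm_num) hs [235, 1, 236, 471, 352, 2]
    2175397862789737701300062078522404713514197095157859539172379735898475997844970338195580469319612042495889283152843210800396380860999781618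
    (by decide +kernel) (by
      intro c hc
      simp only [List.mem_cons, List.not_mem_nil, or_false] at hc
      rcases hc with rfl | rfl | rfl | rfl | rfl | rfl <;> assumption)
  have z10 : s 10 = 0 := zero_of_cert f₂_eq (by norm_num) hs [470, 351, 117, 237]
    1087698931394868850650031039261202356757098547578929769586189867949238053926506390243368469297811977302798933663217851821445711103317466112
    (by decide +kernel) (by
      intro c hc
      simp only [List.mem_cons, List.not_mem_nil, or_false] at hc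
      rcases hc with rfl | rfl | rfl | rfl <;> assumption)
  have z11 : s 11 = 0 := zero_of_cert f₂_eq (by norm_num) hs [235, 120, 351, 471, 117, 2]
    2175397862789737701300062078522404711738738434621973935865206436025391598187187278172341206602656231278064446398316487215517035718806535004
    (by decide +kernel) (by
      intro c hc
      simp only [List.mem_cons, List.not_mem_nil, or_false] at hc
      rcases hc with rfl | rfl | rfl | rfl | rfl | rfl <;> assumption)
  refine eq_zero_of_init f₂ f₂_monic s hs ?_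
  rw [f₂_deg]
  intro j hj
  interval_cases j <;> assumption

/-- the support of a linear relation between window entries for the product -/
def T : Finset (Fin 3 × Fin 8) := {(0, 0), (0, 3), (1, 1), (1, 2), (1, 3), (1, 5), (1, 6), (2, 0), (2, 3)}

lemma prod_dvd : f₁ * f₂ ∣ X ^ (5 * 117) - 1 := by
  have hc : IsCoprime f₁ f₂ := by
    refine (f₁_irr.coprime_iff_not_dvd.2 fun h => ?_)
    have h1 := (f₁_irr.dvd_irreducible_iff_associated f₂_irr).1 h
    have h2 := eq_of_monic_of_associated f₁_monic f₂_monic h1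
    have h3 := congrArg (fun p => p.coeff 11) h2
    simp [f₁, f₂, coeff_X, coeff_one] at h3
  have e : (5 * 117 : ℕ) = 585 := by norm_num
  rw [e]
  exact hc.mul_dvd f₁_dvd f₂_dvd

lemma rel_dvd : f₁ * f₂ ∣ ∑ p ∈ T, X ^ idx cop (((p.1 : ℕ) : ZMod 5)) (((p.2 : ℕ) : ZMod 117)) := by
  have e : ∑ p ∈ T, (X : (ZMod 2)[X]) ^ idx cop (((p.1 : ℕ) : ZMod 5)) (((p.2 : ℕ) : ZMod 117)) =
      P (xors [0, 120, 1, 236, 471, 356, 6, 117, 237]) := by
    rw [P_xors]
    simp only [T]
    rw [Finset.sum_insert (by decide)]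
    rw [Finset.sum_insert (by decide)]
    rw [Finset.sum_insert (by decide)]
    rw [Finset.sum_insert (by decide)]
    rw [Finset.sum_insert (by decide)]
    rw [Finset.sum_insert (by decide)]
    rw [Finset.sum_insert (by decide)]
    rw [Finset.sum_insert (by decide)]
    rw [Finset.sum_singleton]
    have i0 : idx cop (((((0 : Fin 3), (0 : Fin 8)).1 : ℕ)) : ZMod 5) (((((0 : Fin 3), (0 : Fin 8)).2 : ℕ)) : ZMod 117) = 0 :=
      idx_of cop 0 _ _ (by norm_num) (by decide) (by decide)
    have i120 : idx cop (((((0 : Fin 3), (3 : Fin 8)).1 : ℕ)) : ZMod 5) (((((0 : Fin 3), (3 : Fin 8)).2 : ℕ)) : ZMod 117) = 120 :=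
      idx_of cop 120 _ _ (by norm_num) (by decide) (by decide)
    have i1 : idx cop (((((1 : Fin 3), (1 : Fin 8)).1 : ℕ)) : ZMod 5) (((((1 : Fin 3), (1 : Fin 8)).2 : ℕ)) : ZMod 117) = 1 :=
      idx_of cop 1 _ _ (by norm_num) (by decide) (by decide)
    have i236 : idx cop (((((1 : Fin 3), (2 : Fin 8)).1 : ℕ)) : ZMod 5) (((((1 : Fin 3), (2 : Fin 8)).2 : ℕ)) : ZMod 117) = 236 :=
      idx_of cop 236 _ _ (by norm_num) (by decide) (by decide)
    have i471 : idx cop (((((1 : Fin 3), (3 : Fin 8)).1 : ℕ)) : ZMod 5) (((((1 : Fin 3), (3 : Fin 8)).2 : ℕ)) : ZMod 117) = 471 :=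
      idx_of cop 471 _ _ (by norm_num) (by decide) (by decide)
    have i356 : idx cop (((((1 : Fin 3), (5 : Fin 8)).1 : ℕ)) : ZMod 5) (((((1 : Fin 3), (5 : Fin 8)).2 : ℕ)) : ZMod 117) = 356 :=
      idx_of cop 356 _ _ (by norm_num) (by decide) (by decide)
    have i6 : idx cop (((((1 : Fin 3), (6 : Fin 8)).1 : ℕ)) : ZMod 5) (((((1 : Fin 3), (6 : Fin 8)).2 : ℕ)) : ZMod 117) = 6 :=
      idx_of cop 6 _ _ (by norm_num) (by decide) (by decide)
    have i117 : idx cop (((((2 : Fin 3), (0 : Fin 8)).1 : ℕ)) : ZMod 5) (((((2 : Fin 3), (0 : Fin 8)).2 : ℕ)) : ZMod 117) = 117 :=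
      idx_of cop 117 _ _ (by norm_num) (by decide) (by decide)
    have i237 : idx cop (((((2 : Fin 3), (3 : Fin 8)).1 : ℕ)) : ZMod 5) (((((2 : Fin 3), (3 : Fin 8)).2 : ℕ)) : ZMod 117) = 237 :=
      idx_of cop 237 _ _ (by norm_num) (by decide) (by decide)
    rw [i0, i120, i1, i236, i471, i356, i6, i117, i237]
    simp only [List.map_cons, List.map_nil, List.sum_cons, List.sum_nil, add_zero]
  rw [e]
  have h1 : cl 13 6179 5707 = 30677949 := by decide +kernel
  have h2 : cl 25 599557630976455230735720994795335610760700178436014425985777784896716672812102589926708456366546258444900024449253878764319490868184631 30677949 = xors [0, 120, 1, 236, 471, 356, 6, 117, 237] := by decide +kernel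
  have h3 := congrArg P h1
  rw [P_cl 13 _ _ (by norm_num), ← f₁_eq, ← f₂_eq] at h3
  have h4 := congrArg P h2
  rw [P_cl 25 _ _ (by norm_num), ← h3] at h4
  rw [← h4]
  exact dvd_mul_left _ _

/-- The claim of the question fails for `r₁ = 5`, `r₂ = 117`, `n₁ = 3`, `n₂ = 4` and the two
distinct irreducible polynomials `f₁`, `f₂` of degree `12` and exponent `585`. -/
theorem result :
    (3 < 5 ∧ 5 < 2 * 3) ∧ f₁ ≠ f₂ ∧
    (Irreducible f₁ ∧ f₁.natDegree = 3 * 4 ∧ IsExponent f₁ (5 * 117)) ∧
    (Irreducible f₂ ∧ f₂.natDegree = 3 * 4 ∧ IsExponent f₂ (5 * 117)) ∧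
    ((∃ C, IsFolding cop f₁ C) ∧ ∀ C, IsFolding cop f₁ C → IsPRAC 5 117 3 4 C) ∧
    ((∃ C, IsFolding cop f₂ C) ∧ ∀ C, IsFolding cop f₂ C → IsPRAC 5 117 3 4 C) ∧
    ((∃ C, IsFolding cop (f₁ * f₂) C) ∧
      ∀ C, IsFolding cop (f₁ * f₂) C → ¬ IsPRAC 5 117 3 (2 * 4) C) := by
  refine ⟨by norm_num, ?_, ⟨f₁_irr, f₁_deg, f₁_exp⟩, ⟨f₂_irr, f₂_deg, f₂_exp⟩,
    ⟨exists_isFolding _ _, fun C hC => ?_⟩, ⟨exists_isFolding _ _, fun C hC => ?_⟩,
    exists_isFolding _ _, fun C hC => ?_⟩
  · intro h
    have h3 := congrArg (fun p => p.coeff 11) h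
    simp [f₁, f₂, coeff_X, coeff_one] at h3
  · exact prac_of_inj cop f₁ f₁_irr f₁_monic f₁_deg f₁_exp (by norm_num) f₁_inj C hC
  · exact prac_of_inj cop f₂ f₂_irr f₂_monic f₂_deg f₂_exp (by norm_num) f₂_inj C hC
  · exact not_prac cop (f₁ * f₂) prod_dvd T ⟨(0, 0), by decide⟩ rel_dvd C hC

end Pool.Agent.Results.MP_2c8f22_co.NotPRAC
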